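import Mathlib

set_option autoImplicit false

/-! # From most real numbers of a dyadic interval to almost all multiples of a sequence (helper108) -/

open MeasureTheory Filter Topology

namespace Pool.Agent.X108.Pat

/-- for all `x` in `[Y, 2Y]` outside a set of measure `Y ^ (1 - κ)` at least `c Y ^ θ` of the multiples `k x`,
`k ≤ Y ^ θ`, have the property `R` -/
def ManyMultiples (θ c κ : ℝ) (R : ℝ → Prop) : Prop :=
  ∃ Y₀ : ℝ, ∀ Y : ℝ, Y₀ ≤ Y → ∃ E : Set ℝ, MeasurableSet E ∧ volume E ≤ ENNReal.ofReal (Y ^ (1 - κ)) ∧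
    ∀ x : ℝ, Y ≤ x → x ≤ 2 * Y → x ∉ E → c * Y ^ θ ≤ ({k : ℕ | (k : ℝ) ≤ Y ^ θ ∧ R (k * x)}.ncard : ℝ)

theorem ae_of {θ c κ : ℝ} {R : ℝ → Prop} (hκ : 0 < κ) (h : ManyMultiples θ c κ R) (q : ℕ → ℝ)
    (hq : ∀ A : ℕ, ∀ᶠ j : ℕ in atTop, (j : ℝ) ^ A ≤ q j) :
    ∀ᵐ α : ℝ, 1 ≤ α → α ≤ 2 → ∀ᶠ j : ℕ in atTop,
      c * (q j) ^ θ ≤ ({k : ℕ | (k : ℝ) ≤ (q j) ^ θ ∧ R (k * (q j * α))}.ncard : ℝ) := by
  obtain ⟨Y₀, hY⟩ := h
  obtain ⟨A, hA⟩ := exists_nat_ge (2 / κ)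
  rw [div_le_iff₀ hκ] at hA
  have hlarge : ∀ᶠ j : ℕ in atTop, Y₀ ≤ q j := by
    filter_upwards [hq 1, tendsto_natCast_atTop_atTop.eventually_ge_atTop Y₀] with j h1 h2
    rw [pow_one] at h1
    exact h2.trans h1
  obtain ⟨j₀, hj₀⟩ := ((hq A).and (hlarge.and (eventually_ge_atTop 1))).exists_forall_of_atTop
  choose! E hE1 hE2 hE3 using hY
  have hj1 : ∀ j, j₀ ≤ j → 1 ≤ q j := by
    intro j hj
    obtain ⟨h1, -, h3⟩ := hj₀ j hj
    exact (one_le_pow₀ (by exact_mod_cast h3)).trans h1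
  have hmeas : ∀ j : ℕ, volume (if j₀ ≤ j then (fun α : ℝ => q j * α) ⁻¹' (E (q j)) else ∅) ≤
      ENNReal.ofReal (1 / (j : ℝ) ^ 2) := by
    intro j
    split_ifs with hj
    · obtain ⟨h1, h2, h3⟩ := hj₀ j hj
      have h4 := hj1 j hj
      have h5 : 0 < q j := by linarith
      have hj0 : (0 : ℝ) < j := by exact_mod_cast h3
      rw [Real.volume_preimage_mul_left h5.ne', abs_of_pos (inv_pos.2 h5)]
      refine (mul_le_mul_right (hE2 (q j) h2) _).trans ?_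
      rw [← ENNReal.ofReal_mul (inv_nonneg.2 h5.le)]
      apply ENNReal.ofReal_le_ofReal
      have e1 : (q j)⁻¹ * (q j) ^ (1 - κ) = ((q j) ^ κ)⁻¹ := by
        rw [Real.rpow_sub h5, Real.rpow_one]
        field_simp
      rw [e1, one_div]
      apply inv_anti₀ (by positivity)
      calc (j : ℝ) ^ 2 = (j : ℝ) ^ (2 : ℝ) := by norm_cast
        _ ≤ (j : ℝ) ^ ((A : ℝ) * κ) := Real.rpow_le_rpow_of_exponent_le (by exact_mod_cast h3) hA
        _ = ((j : ℝ) ^ A) ^ κ := by rw [Real.rpow_mul hj0.le, Real.rpow_natCast]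
        _ ≤ (q j) ^ κ := Real.rpow_le_rpow (by positivity) h1 hκ.le
    · rw [measure_empty]
      exact bot_le
  have hsum : ∑' j : ℕ, volume (if j₀ ≤ j then (fun α : ℝ => q j * α) ⁻¹' (E (q j)) else ∅) ≠ ⊤ := by
    have hs : Summable (fun j : ℕ => 1 / (j : ℝ) ^ 2) := Real.summable_one_div_nat_pow.2 (by norm_num)
    refine ne_top_of_le_ne_top ?_ (ENNReal.tsum_le_tsum hmeas)
    rw [← ENNReal.ofReal_tsum_of_nonneg (fun j => by positivity) hs]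
    exact ENNReal.ofReal_ne_top
  filter_upwards [ae_eventually_notMem hsum] with α hα h1 h2
  filter_upwards [hα, eventually_ge_atTop j₀] with j h3 h4
  rw [if_pos h4] at h3
  have h5 := hj1 j h4
  have h6 : 0 < q j := by linarith
  exact hE3 (q j) (hj₀ j h4).2.1 (q j * α) (by nlinarith) (by nlinarith) h3

end Pool.Agent.X108.Pat
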