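import Pool.Agent.H749R6.CM.Fin
import Pool.Agent.H622R3.SP.Good
import Pool.Agent.H622R3.SP.Mult
import Pool.Agent.H622R3.SP.Pois
import Pool.Agent.H622R3.SP.Metric

set_option autoImplicit false

/-! # Patterns of primes just below `k x` and just below `α ^ b n`: assembly (helper108) -/

open MeasureTheory Filter Topology

namespace Pool.Agent.X108.Pat

open Pool.Agent.H749R6.CM (Q)
open Pool.Agent.H622R3.SP (AS cb)

open Classical in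
lemma freq_mono {P R : ℕ → Prop} {c : ℝ} (hc : 0 < c)
    (h : ∃ᶠ N : ℕ in atTop, c * N ≤ (((Finset.range N).filter (fun n => P n)).card : ℝ)) (n₀ : ℕ)
    (hPR : ∀ n, n₀ ≤ n → P n → R n) :
    ∃ᶠ N : ℕ in atTop, c / 2 * N ≤ ({n : ℕ | n < N ∧ R n}.ncard : ℝ) := by
  have h1 : ∀ᶠ N : ℕ in atTop, 2 * (n₀ : ℝ) / c ≤ N :=
    tendsto_natCast_atTop_atTop.eventually_ge_atTop _
  refine (h.and_eventually h1).mono ?_
  rintro N ⟨h2, h3⟩
  rw [div_le_iff₀ hc] at h3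
  have hfin : {n : ℕ | n < N ∧ R n}.Finite := (Set.finite_Iio N).subset fun n hn => hn.1
  have h4 : (Finset.range N).filter (fun n => P n) ⊆ hfin.toFinset ∪ Finset.range n₀ := by
    intro n hn
    rw [Finset.mem_filter, Finset.mem_range] at hn
    rw [Finset.mem_union]
    by_cases h5 : n < n₀
    · exact Or.inr (Finset.mem_range.2 h5)
    · left
      rw [Set.Finite.mem_toFinset]
      exact ⟨hn.1, hPR n (not_lt.1 h5) hn.2⟩
  have h5 : (((Finset.range N).filter (fun n => P n)).card : ℝ) ≤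
      ({n : ℕ | n < N ∧ R n}.ncard : ℝ) + n₀ := by
    have h6 := (Finset.card_le_card h4).trans (Finset.card_union_le _ _)
    rw [Finset.card_range, ← Set.ncard_eq_toFinset_card _ hfin] at h6
    exact_mod_cast h6
  linarith

/-- monotonicity of the pattern in the two lengths -/
lemma Q_mono {lam Lam lam' Lam' : ℝ} {m : ℕ} {y : ℝ} (hy : 1 ≤ y) (h1 : lam ≤ lam') (h2 : lam' ≤ Lam')
    (h3 : Lam' ≤ Lam) (h : Q lam Lam m y) : Q lam' Lam' m y := by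
  have hl : 0 ≤ Real.log y := Real.log_nonneg hy
  obtain ⟨ha, hb⟩ := h
  have e1 : lam * Real.log y ≤ lam' * Real.log y := mul_le_mul_of_nonneg_right h1 hl
  have e2 : lam' * Real.log y ≤ Lam' * Real.log y := mul_le_mul_of_nonneg_right h2 hl
  have e3 : Lam' * Real.log y ≤ Lam * Real.log y := mul_le_mul_of_nonneg_right h3 hl
  have hset : {p : ℕ | p.Prime ∧ y - lam' * Real.log y < p ∧ (p : ℝ) < y} =
      {p : ℕ | p.Prime ∧ y - lam * Real.log y < p ∧ (p : ℝ) < y} := by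
    ext p
    constructor
    · rintro ⟨hp, h4, h5⟩
      exact ⟨hp, hb p hp (by linarith) h5, h5⟩
    · rintro ⟨hp, h4, h5⟩
      exact ⟨hp, by linarith, h5⟩
  refine ⟨by rw [hset]; exact ha, fun p hp h4 h5 => ?_⟩
  have h6 := hb p hp (by linarith) h5
  linarith

lemma AS_mono {δ δ' K lam y : ℝ} (hy : 1 ≤ y) (hK : 0 ≤ K) (h : δ ≤ δ') (hA : AS δ K lam y) :
    AS δ' K lam y := by
  intro H h1 h2
  have hl : 0 ≤ Real.log y := Real.log_nonneg hy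
  obtain ⟨h3, h4⟩ := hA H h1 h2
  refine ⟨le_trans ?_ h3, h4⟩
  have hH : 0 ≤ H := le_trans (mul_nonneg hK hl) h1
  apply div_le_div_of_nonneg_right _ hl
  exact mul_le_mul_of_nonneg_right (by linarith) hH

/-- all scales, multiples -/
theorem mult_AS (θ δ : ℝ) (hθ : 0 < θ) (hθ1 : θ < 1) (hδ : 0 < δ) (hδ1 : δ < 1) :
    ∃ K L c κ : ℝ, 0 < K ∧ 0 < L ∧ 0 < c ∧ 0 < κ ∧ ∃ Y₀ : ℝ, ∀ Y : ℝ, Y₀ ≤ Y →
      ∃ E : Set ℝ, MeasurableSet E ∧ volume E ≤ ENNReal.ofReal (Y ^ (1 - κ)) ∧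
      ∀ x : ℝ, Y ≤ x → x ≤ 2 * Y → x ∉ E →
        c * Y ^ θ ≤ ({k : ℕ | (k : ℝ) ≤ Y ^ θ ∧ AS δ K L (k * x)}.ncard : ℝ) := by
  classical
  obtain ⟨K, L, c₀, hK, hL, hc₀, h⟩ := Pool.Agent.H622R3.SP.back_all_scales δ hδ hδ1
  obtain ⟨c, κ, hc, hκ, Y₀, hY⟩ := Pool.Agent.H622R3.SP.mult
    {g : ℕ | ∀ x : ℝ, (g : ℝ) < x → x < g + 1 → AS δ K L x} c₀ hc₀ (by
      filter_upwards [h] with N hN
      refine hN.trans (le_of_eq ?_)
      congr!) θ hθ hθ1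
  refine ⟨K, L, c, κ, hK, hL, hc, hκ, Y₀, fun Y h1 => ?_⟩
  obtain ⟨E, hE1, hE2, hE3⟩ := hY Y h1
  refine ⟨E, hE1, hE2, fun x h2 h3 h4 => (hE3 x h2 h3 h4).trans ?_⟩
  have hfin : {k : ℕ | (k : ℝ) ≤ Y ^ θ ∧ AS δ K L (k * x)}.Finite :=
    (Set.finite_Iic ⌊Y ^ θ⌋₊).subset fun k hk => Nat.le_floor hk.1
  refine Nat.cast_le.2 (Set.ncard_le_ncard ?_ hfin)
  rintro k ⟨hk, g, hg, h5, h6⟩
  exact ⟨hk, hg _ h5 h6⟩

theorem powers (b : ℕ → ℝ) (hb : Tendsto b atTop atTop) :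
    ∀ᵐ α : ℝ, 1 < α →
      (∀ (lam Lam : ℝ) (m : ℕ), 0 < lam → lam ≤ Lam → ∃ c : ℝ, 0 < c ∧ ∃ᶠ N : ℕ in atTop,
        c * N ≤ ({n : ℕ | n < N ∧ Q lam Lam m (α ^ b n)}.ncard : ℝ)) ∧
      (∀ δ : ℝ, 0 < δ → δ < 1 → ∃ K L c : ℝ, 0 < K ∧ 0 < L ∧ 0 < c ∧ ∃ᶠ N : ℕ in atTop,
        c * N ≤ ({n : ℕ | n < N ∧ AS δ K L (α ^ b n)}.ncard : ℝ)) := by
  classical
  have hA : ∀ᵐ α : ℝ, ∀ i j m : ℕ, 1 < α → ∃ c : ℝ, 0 < c ∧ ∃ᶠ N : ℕ in atTop, c * N ≤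
      (((Finset.range N).filter (fun n : ℕ => ∃ g ∈ {g : ℕ | ∀ y : ℝ, (g : ℝ) < y → y < g + 1 →
        Q (1 / ((i : ℝ) + 1)) (1 / ((i : ℝ) + 1) + j) m y}, (g : ℝ) < α ^ b n ∧
          α ^ b n < g + 1)).card : ℝ) := by
    rw [ae_all_iff]; intro i
    rw [ae_all_iff]; intro j
    rw [ae_all_iff]; intro m
    have hi : (0 : ℝ) < 1 / ((i : ℝ) + 1) := by positivity
    have hj : (0 : ℝ) ≤ j := Nat.cast_nonneg _
    obtain ⟨c, hc, h⟩ := Pool.Agent.H622R3.SP.pois_density Pool.Agent.H749R6.CM.pois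
      (1 / ((i : ℝ) + 1)) (1 / ((i : ℝ) + 1) + j) m hi (by linarith)
    filter_upwards [Pool.Agent.H622R3.SP.metric _ c hc h b hb] with α hα h1
    refine ⟨c / 2, by positivity, (hα h1).mono fun N hN => hN.trans (le_of_eq ?_)⟩
    congr!
  have hB : ∀ᵐ α : ℝ, ∀ i : ℕ, 1 < α → ∃ K L c : ℝ, 0 < K ∧ 0 < L ∧ 0 < c ∧
      ∃ᶠ N : ℕ in atTop, c * N ≤ (((Finset.range N).filter (fun n : ℕ => ∃ g ∈ {g : ℕ | ∀ y : ℝ,
        (g : ℝ) < y → y < g + 1 → AS (1 / ((i : ℝ) + 2)) K L y}, (g : ℝ) < α ^ b n ∧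
          α ^ b n < g + 1)).card : ℝ) := by
    rw [ae_all_iff]; intro i
    have hi : (0 : ℝ) < 1 / ((i : ℝ) + 2) := by positivity
    have hi1 : 1 / ((i : ℝ) + 2) < 1 := by
      rw [div_lt_one (by positivity)]
      have : (0 : ℝ) ≤ i := Nat.cast_nonneg _
      linarith
    obtain ⟨K, L, c, hK, hL, hc, h⟩ := Pool.Agent.H622R3.SP.back_all_scales _ hi hi1
    filter_upwards [Pool.Agent.H622R3.SP.metric {g : ℕ | ∀ y : ℝ,
        (g : ℝ) < y → y < g + 1 → AS (1 / ((i : ℝ) + 2)) K L y} c hc (by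
          filter_upwards [h] with N hN
          refine hN.trans (le_of_eq ?_)
          congr!) b hb] with α hα h1
    refine ⟨K, L, c / 2, hK, hL, by positivity, (hα h1).mono fun N hN => hN.trans (le_of_eq ?_)⟩
    congr!
  filter_upwards [hA, hB] with α hα1 hα2 h1
  have hα0 : 0 < α := by linarith
  obtain ⟨n₀, hn₀⟩ := (hb.eventually_ge_atTop 0).exists_forall_of_atTop
  have hge : ∀ n, n₀ ≤ n → 1 ≤ α ^ b n := fun n hn => Real.one_le_rpow h1.le (hn₀ n hn)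
  constructor
  · intro lam Lam m hlam hLam
    obtain ⟨i, hi⟩ := exists_nat_one_div_lt hlam
    obtain ⟨j, hj⟩ := exists_nat_ge Lam
    obtain ⟨c, hc, hf⟩ := hα1 i j m h1
    refine ⟨c / 2, by positivity, freq_mono hc hf n₀ ?_⟩
    rintro n hn ⟨g, hg, h2, h3⟩
    have hi0 : (0 : ℝ) < 1 / ((i : ℝ) + 1) := by positivity
    exact Q_mono (hge n hn) hi.le hLam (by linarith) (hg _ h2 h3)
  · intro δ hδ hδ1
    obtain ⟨i, hi⟩ := exists_nat_one_div_lt hδ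
    obtain ⟨K, L, c, hK, hL, hc, hf⟩ := hα2 i h1
    refine ⟨K, L, c / 2, hK, hL, by positivity, freq_mono hc hf n₀ ?_⟩
    rintro n hn ⟨g, hg, h2, h3⟩
    refine AS_mono (hge n hn) hK.le ?_ (hg _ h2 h3)
    refine le_trans ?_ hi.le
    apply one_div_le_one_div_of_le (by positivity)
    linarith

end Pool.Agent.X108.Pat
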